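import Pool.Agent.TH783.DG.Label

/-! MP_85da37_lc: a vertex of a finite graph with at most two neighbours which are adjacent to each
other can be removed without changing whether the graph is Diophantine; so every finite graph
reduces to a core (contained in its 2-core). -/

set_option autoImplicit false

namespace Pool.Agent.Results.MP_85da37_lc.TwoCore

open Pool.TH783.DG

/-- `G` is Diophantine on the set `W` of vertices: the vertices in `W` have distinct positive labels
such that two of them are adjacent iff the product of their labels plus one is a square -/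
def DioOn {V : Type*} (G : SimpleGraph V) (W : Set V) : Prop :=
  ∃ f : V → ℕ, Set.InjOn f W ∧ (∀ v ∈ W, 0 < f v) ∧
    ∀ u ∈ W, ∀ v ∈ W, u ≠ v → (G.Adj u v ↔ IsSquare (f u * f v + 1))

variable {V : Type*} {G : SimpleGraph V}

theorem not_square_of_succ {n : ℕ} (hn : 0 < n) (h : IsSquare (n + 1)) : ¬ IsSquare n := by
  rintro ⟨s, rfl⟩
  obtain ⟨t, ht⟩ := h
  have hs : 0 < s := by
    rcases Nat.eq_zero_or_pos s with h0 | h0
    · rw [h0] at hn
      simp at hn
    · exact h0
  have h1 : s < t := by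
    by_contra hle
    push Not at hle
    nlinarith [Nat.mul_le_mul hle hle]
  nlinarith [Nat.mul_le_mul h1 h1]

theorem extend [Finite V] {W : Set V} {u : V} (hu : u ∉ W) (hW : DioOn G W)
    (hdeg : ∀ x ∈ W, ∀ y ∈ W, ∀ z ∈ W, G.Adj u x → G.Adj u y → G.Adj u z →
      x = y ∨ x = z ∨ y = z)
    (hclique : ∀ x ∈ W, ∀ y ∈ W, G.Adj u x → G.Adj u y → x ≠ y → G.Adj x y) :
    DioOn G (insert u W) := by
  classical
  obtain ⟨f, hinj, hpos, hadj⟩ := hW
  have hWfin : W.Finite := Set.toFinite W
  set A : Finset ℕ := hWfin.toFinset.image f with hA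
  have hmemA : ∀ w ∈ W, f w ∈ A := fun w hw =>
    Finset.mem_image_of_mem f (hWfin.mem_toFinset.mpr hw)
  have hApos : ∀ c ∈ A, 0 < c := by
    intro c hc
    obtain ⟨w, hw, rfl⟩ := Finset.mem_image.mp hc
    exact hpos w (hWfin.mem_toFinset.mp hw)
  have hAle : ∀ w ∈ W, f w ≤ A.sup id := fun w hw => Finset.le_sup (f := id) (hmemA w hw)
  -- the two labels which are to be the only partners
  obtain ⟨a, b, ha, hb, hab, hsq, hpart⟩ : ∃ a b : ℕ, 0 < a ∧ 0 < b ∧ a ≠ b ∧
      ¬ IsSquare (a * b) ∧ ∀ w ∈ W, (G.Adj u w ↔ f w = a ∨ f w = b) := by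
    by_cases h1 : ∃ w ∈ W, G.Adj u w
    · obtain ⟨w₁, hw₁, hadj₁⟩ := h1
      by_cases h2 : ∃ w ∈ W, G.Adj u w ∧ w ≠ w₁
      · obtain ⟨w₂, hw₂, hadj₂, hne⟩ := h2
        refine ⟨f w₁, f w₂, hpos _ hw₁, hpos _ hw₂, fun h => hne (hinj hw₂ hw₁ h.symm),
          not_square_of_succ (Nat.mul_pos (hpos _ hw₁) (hpos _ hw₂))
            ((hadj _ hw₁ _ hw₂ hne.symm).mp (hclique _ hw₁ _ hw₂ hadj₁ hadj₂ hne.symm)), fun w hw => ⟨fun h => ?_, fun h => ?_⟩⟩
        · rcases hdeg w hw w₁ hw₁ w₂ hw₂ h hadj₁ hadj₂ with e | e | e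
          · exact Or.inl (by rw [e])
          · exact Or.inr (by rw [e])
          · exact absurd e.symm hne
        · rcases h with h | h
          · rw [hinj hw hw₁ h]
            exact hadj₁
          · rw [hinj hw hw₂ h]
            exact hadj₂
      · push Not at h2
        obtain ⟨b, hbL, hab, hsq⟩ := dummy (f w₁) (hpos _ hw₁) (A.sup id)
        refine ⟨f w₁, b, hpos _ hw₁, by omega, by omega, hsq, fun w hw => ⟨fun h => ?_,
          fun h => ?_⟩⟩
        · exact Or.inl (by rw [h2 w hw h])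
        · rcases h with h | h
          · rw [hinj hw hw₁ h]
            exact hadj₁
          · have := hAle w hw
            omega
    · push Not at h1
      obtain ⟨b, hbL, hab, hsq⟩ := dummy (A.sup id + 1) (by omega) (A.sup id)
      refine ⟨A.sup id + 1, b, by omega, by omega, by omega, hsq, fun w hw => ⟨fun h =>
        absurd h (h1 w hw), fun h => ?_⟩⟩
      have := hAle w hw
      omega
  obtain ⟨n, hnL, hna, hnb, hgood, hgood2⟩ := new_label a b ha hb hab hsq A hApos (A.sup id)
  have hne : ∀ w ∈ W, w ≠ u := fun w hw h => hu (h ▸ hw)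
  have hlt : ∀ w ∈ W, f w < n := fun w hw => lt_of_le_of_lt (hAle w hw) hnL
  have key : ∀ w ∈ W, (G.Adj u w ↔ IsSquare (n * f w + 1)) := by
    intro w hw
    rw [hpart w hw]
    constructor
    · rintro (h | h)
      · rw [h]
        exact hna
      · rw [h]
        exact hnb
    · intro h
      by_contra hcon
      push Not at hcon
      exact hgood (f w) (hmemA w hw) hcon.1 hcon.2 h
  refine ⟨Function.update f u n, ?_, ?_, ?_⟩
  · intro x hx y hy hxy
    rcases Set.mem_insert_iff.mp hx with hx' | hx' <;>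
      rcases Set.mem_insert_iff.mp hy with hy' | hy'
    · rw [hx', hy']
    · rw [hx', Function.update_self, Function.update_of_ne (hne y hy')] at hxy
      exact absurd hxy (hlt y hy').ne'
    · rw [hy', Function.update_self, Function.update_of_ne (hne x hx')] at hxy
      exact absurd hxy (hlt x hx').ne
    · rw [Function.update_of_ne (hne x hx'), Function.update_of_ne (hne y hy')] at hxy
      exact hinj hx' hy' hxy
  · intro x hx
    rcases Set.mem_insert_iff.mp hx with hx' | hx'
    · rw [hx', Function.update_self]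
      omega
    · rw [Function.update_of_ne (hne x hx')]
      exact hpos x hx'
  · intro x hx y hy hxy
    rcases Set.mem_insert_iff.mp hx with hx' | hx' <;>
      rcases Set.mem_insert_iff.mp hy with hy' | hy'
    · exact absurd (hx'.trans hy'.symm) hxy
    · rw [hx', Function.update_self, Function.update_of_ne (hne y hy')]
      exact key y hy'
    · rw [hy', Function.update_self, Function.update_of_ne (hne x hx'), G.adj_comm, mul_comm]
      exact key x hx'
    · rw [Function.update_of_ne (hne x hx'), Function.update_of_ne (hne y hy')]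
      exact hadj x hx' y hy' hxy

/-- the core: the union of all sets of vertices in which every vertex has three neighbours or two
neighbours which are not adjacent to each other -/
def core (G : SimpleGraph V) : Set V :=
  {v | ∃ T : Set V, v ∈ T ∧ ∀ u ∈ T,
    (∃ x ∈ T, ∃ y ∈ T, x ≠ y ∧ ¬ G.Adj x y ∧ G.Adj u x ∧ G.Adj u y) ∨
    ∃ x ∈ T, ∃ y ∈ T, ∃ z ∈ T, x ≠ y ∧ x ≠ z ∧ y ≠ z ∧ G.Adj u x ∧ G.Adj u y ∧ G.Adj u z}

theorem core_deg : ∀ u ∈ core G,
    (∃ x ∈ core G, ∃ y ∈ core G, x ≠ y ∧ ¬ G.Adj x y ∧ G.Adj u x ∧ G.Adj u y) ∨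
    ∃ x ∈ core G, ∃ y ∈ core G, ∃ z ∈ core G,
      x ≠ y ∧ x ≠ z ∧ y ≠ z ∧ G.Adj u x ∧ G.Adj u y ∧ G.Adj u z := by
  rintro u ⟨T, hu, hT⟩
  rcases hT u hu with ⟨x, hx, y, hy, h⟩ | ⟨x, hx, y, hy, z, hz, h⟩
  · exact Or.inl ⟨x, ⟨T, hx, hT⟩, y, ⟨T, hy, hT⟩, h⟩
  · exact Or.inr ⟨x, ⟨T, hx, hT⟩, y, ⟨T, hy, hT⟩, z, ⟨T, hz, hT⟩, h⟩

theorem dio_of_core [Finite V] (h : DioOn G (core G)) :
    ∀ (n : ℕ) (W : Set V), W.ncard = n → core G ⊆ W → DioOn G W := by
  intro n
  induction n with
  | zero =>
    intro W hW hsub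
    have : W = core G := by
      have hWe : W = ∅ := (Set.ncard_eq_zero (Set.toFinite W)).mp hW
      rw [hWe]
      rw [hWe] at hsub
      exact (Set.subset_empty_iff.mp hsub).symm
    rw [this]
    exact h
  | succ n ih =>
    intro W hW hsub
    by_cases hall : ∀ u ∈ W,
        (∃ x ∈ W, ∃ y ∈ W, x ≠ y ∧ ¬ G.Adj x y ∧ G.Adj u x ∧ G.Adj u y) ∨
        ∃ x ∈ W, ∃ y ∈ W, ∃ z ∈ W, x ≠ y ∧ x ≠ z ∧ y ≠ z ∧ G.Adj u x ∧ G.Adj u y ∧ G.Adj u z
    · have : W = core G := Set.Subset.antisymm (fun v hv => ⟨W, hv, hall⟩) hsub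
      rw [this]
      exact h
    · push Not at hall
      obtain ⟨u, hu, hall1, hall2⟩ := hall
      have hucore : u ∉ core G := by
        intro hc
        rcases core_deg u hc with ⟨x, hx, y, hy, h1, h2, h3, h4⟩ |
          ⟨x, hx, y, hy, z, hz, h1, h2, h3, h4, h5, h6⟩
        · exact hall1 x (hsub hx) y (hsub hy) h1 h2 h3 h4
        · exact hall2 x (hsub hx) y (hsub hy) z (hsub hz) h1 h2 h3 h4 h5 h6
      have hW' := ih (W \ {u}) (by
        rw [Set.ncard_sdiff_singleton_of_mem hu, hW]
        rfl) (fun v hv => ⟨hsub hv, fun hvu => hucore (hvu ▸ hv)⟩)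
      have := extend (u := u) (by simp) hW' (fun x hx y hy z hz h1 h2 h3 => by
        by_contra hcon
        push Not at hcon
        exact hall2 x hx.1 y hy.1 z hz.1 hcon.1 hcon.2.1 hcon.2.2 h1 h2 h3)
        (fun x hx y hy h1 h2 h3 => by
          by_contra hcon
          exact hall1 x hx.1 y hy.1 h3 hcon h1 h2)
      rwa [Set.insert_sdiff_singleton, Set.insert_eq_of_mem hu] at this

theorem mono {W W' : Set V} (h : W ⊆ W') (hW : DioOn G W') : DioOn G W := by
  obtain ⟨f, h1, h2, h3⟩ := hW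
  exact ⟨f, h1.mono h, fun v hv => h2 v (h hv), fun u hu v hv => h3 u (h hu) v (h hv)⟩

/-- a finite graph is Diophantine iff its vertices have distinct positive labels such that two
distinct vertices are adjacent iff the product of their labels plus one is a square -/
def Diophantine {V : Type*} (G : SimpleGraph V) : Prop :=
  ∃ f : V → ℕ, Function.Injective f ∧ (∀ v, 0 < f v) ∧
    ∀ u v, u ≠ v → (G.Adj u v ↔ IsSquare (f u * f v + 1))

theorem dio_univ : DioOn G Set.univ ↔ Diophantine G := by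
  unfold DioOn Diophantine
  simp only [Set.injOn_univ, Set.mem_univ, forall_const]

theorem dio_induce (W : Set V) : DioOn G W ↔ Diophantine (G.induce W) := by
  constructor
  · rintro ⟨f, h1, h2, h3⟩
    exact ⟨fun v => f v, fun x y hxy => Subtype.ext (h1 x.2 y.2 hxy), fun v => h2 v v.2,
      fun u v huv => h3 u u.2 v v.2 fun h => huv (Subtype.ext h)⟩
  · rintro ⟨f, h1, h2, h3⟩
    classical
    refine ⟨fun v => if h : v ∈ W then f ⟨v, h⟩ else 0, ?_, ?_, ?_⟩
    · intro x hx y hy hxy
      simp only [hx, hy, dif_pos] at hxy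
      have := h1 hxy
      simpa using this
    · intro v hv
      simp only [hv, dif_pos]
      exact h2 _
    · intro u hu v hv huv
      simp only [hu, hv, dif_pos]
      rw [← h3 ⟨u, hu⟩ ⟨v, hv⟩ (fun h => huv (by simpa using h))]
      rfl

/-- **Diophantine graphs: removal of vertices.** -/
theorem result :
    (∀ (V : Type) [Finite V] (G : SimpleGraph V) (v : V),
      (∀ x y z, G.Adj v x → G.Adj v y → G.Adj v z → x = y ∨ x = z ∨ y = z) →
      (∀ x y, G.Adj v x → G.Adj v y → x ≠ y → G.Adj x y) →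
      (Diophantine G ↔ Diophantine (G.induce {u | u ≠ v}))) ∧
    ∀ (V : Type) [Finite V] (G : SimpleGraph V),
      Diophantine G ↔ Diophantine (G.induce (core G)) := by
  refine ⟨fun V _ G v hv hv' => ?_, fun V _ G => ?_⟩
  · rw [← dio_univ, ← dio_induce]
    refine ⟨mono (Set.subset_univ _), fun h => ?_⟩
    have := extend (u := v) (by simp) h (fun x _ y _ z _ h1 h2 h3 => hv x y z h1 h2 h3)
      (fun x _ y _ h1 h2 h3 => hv' x y h1 h2 h3)
    have hu : insert v {u | u ≠ v} = (Set.univ : Set V) := by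
      ext x
      simp [em]
    rwa [hu] at this
  · rw [← dio_univ, ← dio_induce]
    exact ⟨mono (Set.subset_univ _), fun h => dio_of_core h _ _ rfl (Set.subset_univ _)⟩

end Pool.Agent.Results.MP_85da37_lc.TwoCore
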